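import Mathlib

set_option autoImplicit false
open Filter Topology

namespace Pool.Agent.H.MP_3789da_an

/-- initial segments -/
def P (x : List Bool) : Finset (List Bool) := x.inits.toFinset

lemma mem_P {p x : List Bool} : p ∈ P x ↔ p <+: x := by simp [P]

/-- edge weights -/
noncomputable def w (p : List Bool) : ℝ := 1 / ((p.length : ℝ) + 1)

lemma w_pos (p : List Bool) : 0 < w p := by unfold w; positivity

/-- the tree distance -/
noncomputable def d (x y : List Bool) : ℝ := ∑ p ∈ symmDiff (P x) (P y), w p

lemma w_le_d {p x y : List Bool} (h1 : p <+: y) (h2 : ¬ p <+: x) : w p ≤ d x y :=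
  Finset.single_le_sum (fun q _ => (w_pos q).le)
    (Finset.mem_symmDiff.2 (Or.inr ⟨mem_P.2 h1, fun h => h2 (mem_P.1 h)⟩))

lemma d_comm (x y : List Bool) : d x y = d y x := by unfold d; rw [symmDiff_comm]

lemma d_tri (x y z : List Bool) : d x z ≤ d x y + d y z := by
  unfold d
  refine (Finset.sum_le_sum_of_subset_of_nonneg (symmDiff_triangle (P x) (P y) (P z))
    fun q _ _ => (w_pos q).le).trans ?_
  have := Finset.sum_union_inter (s₁ := symmDiff (P x) (P y)) (s₂ := symmDiff (P y) (P z)) (f := w)
  have h2 := Finset.sum_nonneg (s := symmDiff (P x) (P y) ∩ symmDiff (P y) (P z))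
    fun q _ => (w_pos q).le
  rw [Finset.sup_eq_union]
  linarith

lemma iso {x y : List Bool} (h : x ≠ y) : 1 / ((x.length : ℝ) + 2) ≤ d x y := by
  by_cases h1 : x <+: y
  · obtain ⟨t, rfl⟩ := h1
    cases t with
    | nil => simp at h
    | cons b t =>
      have := w_le_d (p := x ++ [b]) (x := x) (y := x ++ b :: t) ⟨t, by simp⟩
        (fun h => by simpa using h.length_le)
      simp only [w, List.length_append, List.length_singleton] at this
      push_cast at this
      rwa [add_assoc, one_add_one_eq_two] at this
  · rw [d_comm]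
    refine le_trans ?_ (w_le_d List.prefix_rfl h1)
    exact one_div_le_one_div_of_le (by positivity) (by linarith)

lemma d_child (z : List Bool) (b : Bool) : d z (z ++ [b]) = 1 / ((z.length : ℝ) + 2) := by
  have : symmDiff (P z) (P (z ++ [b])) = {z ++ [b]} := by
    ext p
    simp only [Finset.mem_symmDiff, mem_P, List.prefix_concat_iff, Finset.mem_singleton]
    constructor
    · tauto
    · rintro rfl
      exact Or.inr ⟨Or.inl rfl, fun h => by simpa using h.length_le⟩
  rw [d, this, Finset.sum_singleton, w]
  simp [add_assoc, one_add_one_eq_two]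

lemma len_le (x : List Bool) : ∑ k ∈ Finset.range x.length, 1 / ((k : ℝ) + 2) ≤ d [] x := by
  induction x using List.reverseRecOn with
  | nil => simp [d]
  | append_singleton x b ih =>
    have h1 : symmDiff (P []) (P (x ++ [b])) = insert (x ++ [b]) (symmDiff (P []) (P x)) := by
      ext p
      simp only [Finset.mem_symmDiff, mem_P, List.prefix_concat_iff, Finset.mem_insert,
        List.prefix_nil]
      constructor
      · tauto
      · rintro (rfl | ⟨rfl, h⟩ | h)
        · simp
        · exact absurd List.nil_prefix h
        · tauto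
    have h2 : x ++ [b] ∉ symmDiff (P []) (P x) := by
      simp only [Finset.mem_symmDiff, mem_P]
      rintro (h | h) <;> simpa using h.1.length_le
    rw [d, h1, Finset.sum_insert h2, List.length_append, List.length_singleton,
      Finset.sum_range_succ, w]
    simp only [List.length_append, List.length_singleton]
    push_cast
    rw [add_assoc (x.length : ℝ), one_add_one_eq_two]
    unfold d at ih
    linarith

/-- the binary tree -/
def X : Type := List Bool

noncomputable instance : MetricSpace X where
  dist := d
  dist_self x := by simp [d]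
  dist_comm := d_comm
  dist_triangle := d_tri
  eq_of_dist_eq_zero {x y} h := by
    by_contra h1
    have h2 : d x y = 0 := h
    have h3 := iso h1
    rw [h2] at h3
    exact absurd h3 (not_le.2 (by positivity))

instance : Nonempty X := ⟨([] : List Bool)⟩

instance : CompleteSpace X := by
  refine Metric.complete_of_cauchySeq_tendsto fun u hu => ?_
  obtain ⟨R, hR⟩ := hu.isBounded_range.subset_closedBall (show X from ([] : List Bool))
  have h1 : Tendsto (fun n => ∑ k ∈ Finset.range n, 1 / ((k : ℝ) + 2)) atTop atTop := by
    have := Real.tendsto_sum_range_one_div_nat_succ_atTop.atTop_div_const (show (0 : ℝ) < 2 by norm_num)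
    refine tendsto_atTop_mono (fun n => ?_) this
    rw [Finset.sum_div]
    refine Finset.sum_le_sum fun k _ => ?_
    rw [div_div]
    exact one_div_le_one_div_of_le (by positivity) (by linarith [(Nat.cast_nonneg k : (0 : ℝ) ≤ k)])
  obtain ⟨L, hL⟩ := eventually_atTop.1 (h1.eventually_gt_atTop R)
  have h2 : ∀ n, List.length (u n) ≤ L := fun n => by
    by_contra h
    have a1 := hL _ (not_le.1 h).le
    have a2 := len_le (u n)
    have a3 : d (u n) [] ≤ R := hR ⟨n, rfl⟩
    rw [d_comm] at a3
    linarith
  obtain ⟨N, hN⟩ := Metric.cauchySeq_iff'.1 hu (1 / ((L : ℝ) + 2)) (by positivity)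
  refine ⟨u N, tendsto_const_nhds.congr' ?_⟩
  filter_upwards [eventually_ge_atTop N] with n hn
  by_contra h
  have a1 := iso (Ne.symm h)
  have a2 : d (u n) (u N) < _ := hN n hn
  have a3 : (List.length (u n) : ℝ) ≤ L := by exact_mod_cast h2 n
  have a4 := one_div_le_one_div_of_le (show (0 : ℝ) < List.length (u n) + 2 by positivity)
    (show (List.length (u n) : ℝ) + 2 ≤ L + 2 by linarith)
  linarith

/-- the multivalued map -/
def T (x : X) : Set X := {z | ¬ List.IsPrefix z x}

lemma T_nonempty (x : X) : (T x).Nonempty :=
  ⟨List.append x [true], fun h => by simpa using h.length_le⟩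

lemma T_closed (x : X) : IsClosed (T x) := by
  refine isOpen_compl_iff.1 (Metric.isOpen_iff.2 fun z hz => ⟨1 / ((List.length z : ℝ) + 2),
    by positivity, fun y hy => ?_⟩)
  by_cases h : z = y
  · exact h ▸ hz
  · have a1 := iso h
    have a2 : d y z < _ := hy
    rw [d_comm] at a2
    linarith

lemma T_near (x y z : X) (hz : z ∈ T x) : ∃ v ∈ T y, dist z v ≤ dist x y / (1 + dist x y) := by
  by_cases h : List.IsPrefix z y
  · obtain ⟨b, hb⟩ : ∃ b, ¬ List.IsPrefix (List.append z [b]) y := by
      by_contra h1
      push Not at h1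
      have := (List.prefix_of_prefix_length_le (h1 true) (h1 false) (by simp)).eq_of_length (by simp)
      simp at this
    refine ⟨List.append z [b], hb, (d_child z b).le.trans ?_⟩
    have a1 : 1 / ((List.length z : ℝ) + 1) ≤ dist x y := w_le_d h hz
    rw [div_le_iff₀ (by positivity)] at a1
    rw [div_le_div_iff₀ (by positivity) (by positivity)]
    linarith
  · exact ⟨z, h, by rw [dist_self]; positivity⟩

lemma T_haus (x y : X) :
    Metric.hausdorffEDist (T x) (T y) ≤ ENNReal.ofReal (dist x y / (1 + dist x y)) := by
  refine Metric.hausdorffEDist_le_of_mem_edist (fun z hz => ?_) fun z hz => ?_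
  · obtain ⟨v, h1, h2⟩ := T_near x y z hz
    exact ⟨v, h1, by rw [edist_dist]; exact ENNReal.ofReal_le_ofReal h2⟩
  · obtain ⟨v, h1, h2⟩ := T_near y x z hz
    exact ⟨v, h1, by rw [edist_dist, dist_comm x y]; exact ENNReal.ofReal_le_ofReal h2⟩

end Pool.Agent.H.MP_3789da_an
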